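import Pool.Agent.H177R3.PerD

/-!
Assume the Riemann hypothesis.  The normalised spacings of the zeta zeros do not follow a periodic
pattern modulo `s ≥ 1`: for every `K`-periodic real sequence `a` a positive proportion of the
spacings `d_j` stays away from `a_j + s ℤ`.  In particular the spacings cannot run through a
periodic pattern of integers and half-odd integers, whatever the pattern is.

Idea of the proof.  Let `θ = 1 / s ≤ 1`.  If almost all the spacings were close to `a_j + s ℤ`, then
the exponential sum over nearby zeros at the frequency `θ + β` would be the sum of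
`e(θ (a_1 + … + a_{n-1}) + β y_n)`.  The coefficients `e(θ (a_1 + … + a_{n-1}))` have bounded
discrepancy from a constant, so summation by parts, Plancherel's theorem and Montgomery's theorem
near the frequency `0` show that the mean square over `0 < β < 4 e` is of smaller order than `e`,
whereas Montgomery's theorem (form factor `|α|` on `(-1, 1)`) gives a multiple of `θ e`.  The
passage from pairs to consecutive zeros uses bounds for the moments of the number of zeros in
windows of bounded length at the scale of the mean spacing.
-/

open Filter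

namespace Pool.Agent.Results.MP_f0209c_nt.PeriodicPatterns

/-- multiplicity of `s` as a zero of the Riemann zeta function (order of vanishing at `s`) -/
noncomputable def zmult (s : ℂ) : ℕ := analyticOrderNatAt riemannZeta s

/-- the number of nontrivial zeros of `ζ` with ordinate in `(0, t]`, with multiplicity -/
noncomputable def NZ (t : ℝ) : ℕ :=
  ∑ᶠ s ∈ {s : ℂ | riemannZeta s = 0 ∧ 0 < s.re ∧ s.re < 1 ∧ 0 < s.im ∧ s.im ≤ t}, zmult s

/-- for `j ≥ 1`: the `j`-th positive ordinate `γ j` of a nontrivial zero of `ζ`, the ordinates being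
listed in nondecreasing order and repeated according to multiplicity -/
noncomputable def γ (j : ℕ) : ℝ := sInf {t : ℝ | j ≤ NZ t}

/-- the normalised spacings `d_j = γ_{j+1} log γ_{j+1} / 2π - γ_j log γ_j / 2π` -/
noncomputable def d (j : ℕ) : ℝ :=
  (γ (j + 1) * Real.log (γ (j + 1)) - γ j * Real.log (γ j)) / (2 * Real.pi)

/-- On the Riemann hypothesis: for every `s ≥ 1` and every real sequence `a` with period `K ≥ 1`
there is `ε > 0` such that for all large `N` at least `ε N` of the indices `1 ≤ j ≤ N` satisfy
`|d_j - (a_j + s k)| ≥ ε` for all integers `k`. -/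
theorem result (RH : RiemannHypothesis) (s : ℝ) (hs : 1 ≤ s) (K : ℕ) (hK : 1 ≤ K) (a : ℕ → ℝ)
    (ha : ∀ j, a (j + K) = a j) :
    ∃ ε : ℝ, 0 < ε ∧ ∀ᶠ N : ℕ in atTop,
      ε * N ≤ ({j : ℕ | 1 ≤ j ∧ j ≤ N ∧ ∀ k : ℤ, ε ≤ |d j - (a j + s * k)|}.ncard : ℝ) := by
  have hdel : ∀ n, H177.Lat.del n = d n := fun n => rfl
  have hs0 : 0 < s := by linarith
  obtain ⟨ε, hε, h⟩ := H177.Lat.periodic_one RH (1 / s) a (by positivity) (by
    rw [div_le_one hs0]; exact hs) K hK ha
  refine ⟨ε, hε, ?_⟩
  filter_upwards [h] with N hN
  have e : ∀ (n : ℕ) (k : ℤ), H177.Lat.del n - a n - k / (1 / s) = d n - (a n + s * k) := by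
    intro n k
    rw [hdel, div_div_eq_mul_div, div_one]
    ring
  simp only [e] at hN
  exact hN

end Pool.Agent.Results.MP_f0209c_nt.PeriodicPatterns
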